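import Mathlib
import Pool.Prelude.Def_F_2fcaa438

set_option autoImplicit false

open Finset Real Filter Topology
open Ne40b1b74

namespace Pool.Agent.Results.MP_b9c6d3_nt.ExponentLogTwoOverLogFourteen

/-! ### The digit map -/

/-- Reads the `j` lowest binary digits of `a` in base seven. -/
def psi : ℕ → ℕ → ℕ
  | 0, _ => 0
  | j + 1, a => a % 2 + 7 * psi j (a / 2)

lemma psi_bound : ∀ (j a : ℕ), 6 * psi j a + 1 ≤ 7 ^ j
  | 0, a => by simp [psi]
  | j + 1, a => by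
    have h := psi_bound j (a / 2)
    have h2 : a % 2 < 2 := Nat.mod_lt _ (by norm_num)
    simp only [psi, pow_succ]
    omega

lemma psi_key : ∀ (j a b c a' b' c' : ℕ), a < 2 ^ j → b < 2 ^ j → c < 2 ^ j →
    a' < 2 ^ j → b' < 2 ^ j → c' < 2 ^ j →
    psi j a + 2 * psi j b + 3 * psi j c = psi j a' + 2 * psi j b' + 3 * psi j c' →
    a + c = a' + c' ∧ b + c = b' + c'
  | 0, a, b, c, a', b', c' => by
    intro h1 h2 h3 h4 h5 h6 _
    simp only [pow_zero] at h1 h2 h3 h4 h5 h6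
    omega
  | j + 1, a, b, c, a', b', c' => by
    intro h1 h2 h3 h4 h5 h6 h
    simp only [pow_succ] at h1 h2 h3 h4 h5 h6
    simp only [psi] at h
    have key := psi_key j (a / 2) (b / 2) (c / 2) (a' / 2) (b' / 2) (c' / 2)
      (by omega) (by omega) (by omega) (by omega) (by omega) (by omega)
    generalize psi j (a / 2) = p1 at *
    generalize psi j (b / 2) = p2 at *
    generalize psi j (c / 2) = p3 at *
    generalize psi j (a' / 2) = p1' at *
    generalize psi j (b' / 2) = p2' at *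
    generalize psi j (c' / 2) = p3' at *
    have e1 := Nat.mod_lt a (show 0 < 2 by norm_num)
    have e2 := Nat.mod_lt b (show 0 < 2 by norm_num)
    have e3 := Nat.mod_lt c (show 0 < 2 by norm_num)
    have e4 := Nat.mod_lt a' (show 0 < 2 by norm_num)
    have e5 := Nat.mod_lt b' (show 0 < 2 by norm_num)
    have e6 := Nat.mod_lt c' (show 0 < 2 by norm_num)
    have hb : a % 2 + 2 * (b % 2) + 3 * (c % 2) = a' % 2 + 2 * (b' % 2) + 3 * (c' % 2) := by
      omega
    have hr : p1 + 2 * p2 + 3 * p3 = p1' + 2 * p2' + 3 * p3' := by omega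
    obtain ⟨k1, k2⟩ := key hr
    omega

/-! ### Digit expansions -/

lemma digit_sum_lt (b : ℕ) : ∀ (n : ℕ) (s : Fin n → ℕ), (∀ i, s i < b) →
    ∑ i, s i * b ^ (i : ℕ) < b ^ n
  | 0, s => by intro _; simp
  | n + 1, s => by
    intro hs
    have ih := digit_sum_lt b n (fun i => s i.succ) (fun i => hs _)
    rw [Fin.sum_univ_succ]
    have e : ∑ i : Fin n, s i.succ * b ^ ((i.succ : Fin (n + 1)) : ℕ)
        = b * ∑ i : Fin n, s i.succ * b ^ (i : ℕ) := by
      rw [Finset.mul_sum]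
      refine Finset.sum_congr rfl (fun i _ => ?_)
      rw [Fin.val_succ, pow_succ]
      ring
    rw [e]
    have h0 := hs 0
    simp only [Fin.val_zero, pow_zero, mul_one]
    calc s 0 + b * ∑ i : Fin n, s i.succ * b ^ (i : ℕ)
        < b + b * ∑ i : Fin n, s i.succ * b ^ (i : ℕ) := by omega
      _ = b * (∑ i : Fin n, s i.succ * b ^ (i : ℕ) + 1) := by ring
      _ ≤ b * b ^ n := Nat.mul_le_mul_left _ ih
      _ = b ^ (n + 1) := by ring

lemma digit_unique (b : ℕ) : ∀ (n : ℕ) (s t : Fin n → ℕ), (∀ i, s i < b) → (∀ i, t i < b) →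
    ∑ i, s i * b ^ (i : ℕ) = ∑ i, t i * b ^ (i : ℕ) → s = t
  | 0, s, t => by intro _ _ _; exact Subsingleton.elim _ _
  | n + 1, s, t => by
    intro hs ht h
    have e : ∀ u : Fin (n + 1) → ℕ, ∑ i : Fin n, u i.succ * b ^ ((i.succ : Fin (n + 1)) : ℕ)
        = b * ∑ i : Fin n, u i.succ * b ^ (i : ℕ) := by
      intro u
      rw [Finset.mul_sum]
      refine Finset.sum_congr rfl (fun i _ => ?_)
      rw [Fin.val_succ, pow_succ]
      ring
    rw [Fin.sum_univ_succ, Fin.sum_univ_succ, e, e] at h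
    simp only [Fin.val_zero, pow_zero, mul_one] at h
    have h0 : s 0 = t 0 := by
      have := congrArg (fun v => v % b) h
      simpa [Nat.add_mul_mod_self_left, Nat.mod_eq_of_lt (hs 0), Nat.mod_eq_of_lt (ht 0)] using this
    have hb : 0 < b := lt_of_le_of_lt (Nat.zero_le _) (hs 0)
    have h1 : ∑ i : Fin n, s i.succ * b ^ (i : ℕ) = ∑ i : Fin n, t i.succ * b ^ (i : ℕ) := by
      rw [h0] at h
      exact Nat.eq_of_mul_eq_mul_left hb (Nat.add_left_cancel h)
    have ih := digit_unique b n (fun i => s i.succ) (fun i => t i.succ)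
      (fun i => hs _) (fun i => ht _) h1
    funext i
    refine Fin.cases h0 (fun k => ?_) i
    exact congrFun ih k

lemma split_unique (M a b a' b' : ℕ) (ha : a < M) (ha' : a' < M)
    (h : a + M * b = a' + M * b') : a = a' ∧ b = b' := by
  have h0 : a = a' := by
    have := congrArg (fun v => v % M) h
    simpa [Nat.add_mul_mod_self_left, Nat.mod_eq_of_lt ha, Nat.mod_eq_of_lt ha'] using this
  have hb : 0 < M := lt_of_le_of_lt (Nat.zero_le _) ha
  refine ⟨h0, ?_⟩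
  rw [h0] at h
  exact Nat.eq_of_mul_eq_mul_left hb (Nat.add_left_cancel h)

/-! ### The construction -/

/-- Lower block: the digits, each rewritten by `psi`, read in base `7 ^ j`. -/
def phi (j n : ℕ) (d : Fin n → ℕ) : ℕ := ∑ i, psi j (d i) * (7 ^ j) ^ (i : ℕ)

/-- The digits read in base `3 * 2 ^ j`. -/
def tau (j n : ℕ) (d : Fin n → ℕ) : ℕ := ∑ i, d i * (3 * 2 ^ j) ^ (i : ℕ)

/-- The element of the set attached to a digit vector. -/
def val (j n P : ℕ) (d : Fin n → ℕ) : ℕ :=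
  1 + (phi j n d + (7 ^ j) ^ n * (tau j n d ^ 2 % P))

lemma phi_comb (j n : ℕ) (x y z : Fin n → ℕ) :
    phi j n x + 2 * phi j n y + 3 * phi j n z
      = ∑ i, (psi j (x i) + 2 * psi j (y i) + 3 * psi j (z i)) * (7 ^ j) ^ (i : ℕ) := by
  simp only [phi, Finset.mul_sum, ← Finset.sum_add_distrib]
  refine Finset.sum_congr rfl (fun i _ => ?_)
  ring

lemma comb_lt (j : ℕ) (a b c : ℕ) : psi j a + 2 * psi j b + 3 * psi j c < 7 ^ j := by
  have h1 := psi_bound j a
  have h2 := psi_bound j b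
  have h3 := psi_bound j c
  omega

lemma phi_comb_lt (j n : ℕ) (x y z : Fin n → ℕ) :
    phi j n x + 2 * phi j n y + 3 * phi j n z < (7 ^ j) ^ n := by
  rw [phi_comb]
  exact digit_sum_lt _ _ _ (fun i => comb_lt j _ _ _)

lemma phi_lt (j n : ℕ) (x : Fin n → ℕ) : phi j n x < (7 ^ j) ^ n := by
  have := phi_comb_lt j n x x x
  omega

lemma phi_key (j n : ℕ) (x y z x' y' z' : Fin n → ℕ)
    (hx : ∀ i, x i < 2 ^ j) (hy : ∀ i, y i < 2 ^ j) (hz : ∀ i, z i < 2 ^ j)
    (hx' : ∀ i, x' i < 2 ^ j) (hy' : ∀ i, y' i < 2 ^ j) (hz' : ∀ i, z' i < 2 ^ j)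
    (h : phi j n x + 2 * phi j n y + 3 * phi j n z
      = phi j n x' + 2 * phi j n y' + 3 * phi j n z') (i : Fin n) :
    x i + z i = x' i + z' i ∧ y i + z i = y' i + z' i := by
  rw [phi_comb, phi_comb] at h
  have := congrFun (digit_unique _ _ _ _ (fun i => comb_lt j _ _ _)
    (fun i => comb_lt j _ _ _) h) i
  exact psi_key j _ _ _ _ _ _ (hx i) (hy i) (hz i) (hx' i) (hy' i) (hz' i) this

lemma tau_add (j n : ℕ) (x z x' z' : Fin n → ℕ) (h : ∀ i, x i + z i = x' i + z' i) :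
    tau j n x + tau j n z = tau j n x' + tau j n z' := by
  simp only [tau, ← Finset.sum_add_distrib, ← add_mul]
  exact Finset.sum_congr rfl (fun i _ => by rw [h i])

lemma tau_three_lt (j n : ℕ) (x : Fin n → ℕ) (hx : ∀ i, x i < 2 ^ j) :
    3 * tau j n x < (3 * 2 ^ j) ^ n := by
  have : 3 * tau j n x = ∑ i, (3 * x i) * (3 * 2 ^ j) ^ (i : ℕ) := by
    simp only [tau, Finset.mul_sum, mul_assoc]
  rw [this]
  exact digit_sum_lt _ _ _ (fun i => by have := hx i; omega)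

lemma tau_inj (j n : ℕ) (x y : Fin n → ℕ) (hx : ∀ i, x i < 2 ^ j) (hy : ∀ i, y i < 2 ^ j)
    (h : tau j n x = tau j n y) : x = y :=
  digit_unique _ _ _ _ (fun i => by have := hx i; omega) (fun i => by have := hy i; omega) h

lemma tau_mid (j n : ℕ) (x y z : Fin n → ℕ) (hx : ∀ i, x i < 2 ^ j) (hy : ∀ i, y i < 2 ^ j)
    (hz : ∀ i, z i < 2 ^ j) (h : tau j n x + 2 * tau j n y = 3 * tau j n z) (i : Fin n) :
    x i + 2 * y i = 3 * z i := by
  have h' : ∑ i, (x i + 2 * y i) * (3 * 2 ^ j) ^ (i : ℕ)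
      = ∑ i, (3 * z i) * (3 * 2 ^ j) ^ (i : ℕ) := by
    have e1 : ∑ i, (x i + 2 * y i) * (3 * 2 ^ j) ^ (i : ℕ) = tau j n x + 2 * tau j n y := by
      simp only [tau, Finset.mul_sum, ← Finset.sum_add_distrib]
      refine Finset.sum_congr rfl (fun i _ => ?_)
      ring
    have e2 : ∑ i, (3 * z i) * (3 * 2 ^ j) ^ (i : ℕ) = 3 * tau j n z := by
      simp only [tau, Finset.mul_sum, mul_assoc]
    rw [e1, e2, h]
  exact congrFun (digit_unique _ _ _ _
    (fun i => by have := hx i; have := hy i; omega)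
    (fun i => by have := hz i; omega) h') i

/-- A point of a sphere that is a weighted mean of two points of the same sphere. -/
lemma sphere_mid (n R : ℕ) (x y z : Fin n → ℕ) (hx : ∑ i, x i ^ 2 = R) (hy : ∑ i, y i ^ 2 = R)
    (hz : ∑ i, z i ^ 2 = R) (h : ∀ i, x i + 2 * y i = 3 * z i) : x = y ∧ z = y := by
  have key : ∑ i, ((x i : ℤ) - y i) ^ 2 = 0 := by
    have hx' : ∑ i, (x i : ℤ) ^ 2 = R := by exact_mod_cast hx
    have hy' : ∑ i, (y i : ℤ) ^ 2 = R := by exact_mod_cast hy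
    have hz' : ∑ i, (z i : ℤ) ^ 2 = R := by exact_mod_cast hz
    have e : ∀ i, 2 * ((x i : ℤ) - y i) ^ 2
        = 3 * (x i : ℤ) ^ 2 + 6 * (y i : ℤ) ^ 2 - 9 * (z i : ℤ) ^ 2 := by
      intro i
      have hi : (x i : ℤ) + 2 * y i = 3 * z i := by exact_mod_cast h i
      have hi2 : ((x i : ℤ) + 2 * y i) ^ 2 = (3 * z i) ^ 2 := by rw [hi]
      nlinarith [hi2]
    have e2 : 2 * ∑ i, ((x i : ℤ) - y i) ^ 2 = 0 := by
      rw [Finset.mul_sum]
      simp only [e]
      rw [Finset.sum_sub_distrib, Finset.sum_add_distrib, ← Finset.mul_sum, ← Finset.mul_sum,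
        ← Finset.mul_sum, hx', hy', hz']
      ring
    linarith
  have hxy : ∀ i, x i = y i := by
    intro i
    have := (Finset.sum_eq_zero_iff_of_nonneg (fun i _ => sq_nonneg ((x i : ℤ) - y i))).mp key i
      (Finset.mem_univ i)
    have h2 : (x i : ℤ) - y i = 0 := by
      exact pow_eq_zero_iff (two_ne_zero) |>.mp this
    have h3 : (x i : ℤ) = y i := by linarith
    exact_mod_cast h3
  refine ⟨funext hxy, funext (fun i => ?_)⟩
  have h1 := hxy i
  have h2 := h i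
  omega

lemma prime_step (P : ℕ) (hP : P.Prime) (h2 : P ≠ 2) (t1 t2 t3 s1 s2 s3 : ℕ)
    (b1 : 3 * t1 < P) (b2 : 3 * t2 < P) (_b3 : 3 * t3 < P)
    (c1 : 3 * s1 < P) (_c2 : 3 * s2 < P) (c3 : 3 * s3 < P)
    (e1 : t1 + t3 = s1 + s3) (e2 : t2 + t3 = s2 + s3)
    (h : t1 ^ 2 % P + 2 * (t2 ^ 2 % P) + 3 * (t3 ^ 2 % P)
      = s1 ^ 2 % P + 2 * (s2 ^ 2 % P) + 3 * (s3 ^ 2 % P)) :
    t1 = s1 ∨ s1 + 2 * s2 = 3 * t3 := by
  have hmod : ((t1 ^ 2 + 2 * t2 ^ 2 + 3 * t3 ^ 2 : ℕ) : ZMod P)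
      = ((s1 ^ 2 + 2 * s2 ^ 2 + 3 * s3 ^ 2 : ℕ) : ZMod P) := by
    have := congrArg (fun v : ℕ => (v : ZMod P)) h
    simpa using this
  have hint : ((2 * ((t1 : ℤ) - s1) * ((s1 : ℤ) + 2 * s2 - 3 * t3) : ℤ) : ZMod P) = 0 := by
    have e1' : (t1 : ℤ) = s1 + s3 - t3 := by
      have : (t1 : ℤ) + t3 = s1 + s3 := by exact_mod_cast e1
      linarith
    have e2' : (t2 : ℤ) = s2 + s3 - t3 := by
      have : (t2 : ℤ) + t3 = s2 + s3 := by exact_mod_cast e2
      linarith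
    have e3 : (2 * ((t1 : ℤ) - s1) * ((s1 : ℤ) + 2 * s2 - 3 * t3) : ℤ)
        = ((t1 : ℤ) ^ 2 + 2 * (t2 : ℤ) ^ 2 + 3 * (t3 : ℤ) ^ 2)
          - ((s1 : ℤ) ^ 2 + 2 * (s2 : ℤ) ^ 2 + 3 * (s3 : ℤ) ^ 2) := by
      rw [e1', e2']
      ring
    rw [e3]
    push_cast at hmod ⊢
    rw [hmod]
    ring
  have hdvd : (P : ℤ) ∣ 2 * ((t1 : ℤ) - s1) * ((s1 : ℤ) + 2 * s2 - 3 * t3) :=
    (ZMod.intCast_zmod_eq_zero_iff_dvd _ P).mp hint
  have hPi : Prime (P : ℤ) := Nat.prime_iff_prime_int.mp hP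
  rcases hPi.dvd_or_dvd hdvd with h' | h'
  · rcases hPi.dvd_or_dvd h' with h'' | h''
    · exfalso
      have h3 : P ∣ 2 := by exact_mod_cast h''
      exact h2 ((Nat.prime_dvd_prime_iff_eq hP Nat.prime_two).mp h3)
    · left
      have : (t1 : ℤ) - s1 = 0 := by
        apply Int.eq_zero_of_abs_lt_dvd h''
        rw [abs_lt]
        constructor <;> omega
      omega
  · right
    have : (s1 : ℤ) + 2 * s2 - 3 * t3 = 0 := by
      apply Int.eq_zero_of_abs_lt_dvd h'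
      rw [abs_lt]
      constructor <;> omega
    omega

lemma trivial_case (u v : ℕ) : IsTrivialZhaoSolution u u v v v u := by
  intro a
  by_cases h1 : u = a <;> by_cases h2 : v = a <;> simp [h1, h2]

lemma main_free (j n P R : ℕ) (hP : P.Prime) (h2 : P ≠ 2) (hPB : (3 * 2 ^ j) ^ n < P)
    (x y z x' y' z' : Fin n → ℕ)
    (hx : ∀ i, x i < 2 ^ j) (hy : ∀ i, y i < 2 ^ j) (hz : ∀ i, z i < 2 ^ j)
    (hx' : ∀ i, x' i < 2 ^ j) (hy' : ∀ i, y' i < 2 ^ j) (hz' : ∀ i, z' i < 2 ^ j)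
    (rx' : ∑ i, x' i ^ 2 = R) (ry' : ∑ i, y' i ^ 2 = R) (rz : ∑ i, z i ^ 2 = R)
    (h : val j n P x + 2 * val j n P y + 3 * val j n P z
      = val j n P x' + 2 * val j n P y' + 3 * val j n P z') :
    IsTrivialZhaoSolution (val j n P x) (val j n P y) (val j n P z)
      (val j n P x') (val j n P y') (val j n P z') := by
  have h0 : (phi j n x + 2 * phi j n y + 3 * phi j n z)
        + (7 ^ j) ^ n * (tau j n x ^ 2 % P + 2 * (tau j n y ^ 2 % P) + 3 * (tau j n z ^ 2 % P))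
      = (phi j n x' + 2 * phi j n y' + 3 * phi j n z')
        + (7 ^ j) ^ n *
          (tau j n x' ^ 2 % P + 2 * (tau j n y' ^ 2 % P) + 3 * (tau j n z' ^ 2 % P)) := by
    simp only [val] at h
    nlinarith [h]
  obtain ⟨hphi, hhash⟩ := split_unique _ _ _ _ _ (phi_comb_lt j n x y z)
    (phi_comb_lt j n x' y' z') h0
  have hk := phi_key j n x y z x' y' z' hx hy hz hx' hy' hz' hphi
  have t1 := tau_add j n x z x' z' (fun i => (hk i).1)
  have t2 := tau_add j n y z y' z' (fun i => (hk i).2)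
  have b := fun (w : Fin n → ℕ) (hw : ∀ i, w i < 2 ^ j) => (tau_three_lt j n w hw).trans hPB
  rcases prime_step P hP h2 _ _ _ _ _ _ (b x hx) (b y hy) (b z hz) (b x' hx') (b y' hy')
    (b z' hz') t1 t2 hhash with hc | hc
  · have ex : x = x' := tau_inj j n _ _ hx hx' hc
    have ez : z = z' := tau_inj j n _ _ hz hz' (by omega)
    have ey : y = y' := tau_inj j n _ _ hy hy' (by subst ez; omega)
    subst ex ey ez
    intro a
    rfl
  · obtain ⟨e1, e2⟩ := sphere_mid n R x' y' z rx' ry' rz (tau_mid j n _ _ _ hx' hy' hz hc)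
    subst e1 e2
    have e3 : x = z' := by
      funext i
      have := (hk i).1
      omega
    have e4 : y = z' := by
      funext i
      have := (hk i).2
      omega
    subst e3 e4
    exact trivial_case _ _

lemma val_inj (j n P : ℕ) (x y : Fin n → ℕ) (hx : ∀ i, x i < 2 ^ j) (hy : ∀ i, y i < 2 ^ j)
    (h : val j n P x = val j n P y) : x = y := by
  have h0 : phi j n x + (7 ^ j) ^ n * (tau j n x ^ 2 % P)
      = phi j n y + (7 ^ j) ^ n * (tau j n y ^ 2 % P) := by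
    simp only [val] at h
    omega
  obtain ⟨hphi, -⟩ := split_unique _ _ _ _ _ (phi_lt j n x) (phi_lt j n y) h0
  have hk := phi_key j n x x x y x x hx hx hx hy hx hx (by omega)
  funext i
  have := (hk i).1
  omega

lemma val_mem (j n P N : ℕ) (hP : 0 < P) (hN : (7 ^ j) ^ n * P ≤ N) (x : Fin n → ℕ) :
    val j n P x ∈ Icc 1 N := by
  rw [Finset.mem_Icc]
  refine ⟨by simp [val], ?_⟩
  have h1 := phi_lt j n x
  have h2 : tau j n x ^ 2 % P + 1 ≤ P := Nat.mod_lt _ hP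
  have h3 : (7 ^ j) ^ n * (tau j n x ^ 2 % P + 1) ≤ (7 ^ j) ^ n * P := Nat.mul_le_mul_left _ h2
  simp only [val]
  rw [mul_add, mul_one] at h3
  omega

lemma g_bddAbove (N : ℕ) :
    BddAbove {k : ℕ | ∃ A : Finset ℕ, A ⊆ Icc 1 N ∧ ZhaoSolutionFree A ∧ A.card = k} := by
  refine ⟨N, ?_⟩
  rintro k ⟨A, hA, -, rfl⟩
  simpa using Finset.card_le_card hA

lemma le_g (N : ℕ) (A : Finset ℕ) (hA : A ⊆ Icc 1 N) (hf : ZhaoSolutionFree A) :
    A.card ≤ g N :=
  le_csSup (g_bddAbove N) ⟨A, hA, hf, rfl⟩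

/-- The explicit lower bound. -/
lemma explicit_bound (j n N : ℕ) (hn : 0 < n) (hN : 2 * (3 * 14 ^ j) ^ n ≤ N) :
    (2 ^ j) ^ n ≤ n * 4 ^ j * g N := by
  classical
  obtain ⟨P, hP, hP1, hP2⟩ := Nat.exists_prime_lt_and_le_two_mul ((3 * 2 ^ j) ^ n)
    (by positivity)
  have hB3 : 3 ≤ (3 * 2 ^ j) ^ n := by
    calc 3 ≤ 3 * 2 ^ j := Nat.le_mul_of_pos_right _ (by positivity)
      _ = (3 * 2 ^ j) ^ 1 := (pow_one _).symm
      _ ≤ (3 * 2 ^ j) ^ n := Nat.pow_le_pow_right (by positivity) hn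
  have hPne : P ≠ 2 := by omega
  have hMP : (7 ^ j) ^ n * P ≤ N := by
    calc (7 ^ j) ^ n * P ≤ (7 ^ j) ^ n * (2 * (3 * 2 ^ j) ^ n) := Nat.mul_le_mul_left _ hP2
      _ = 2 * (3 * 14 ^ j) ^ n := by
        rw [show (14 : ℕ) ^ j = 7 ^ j * 2 ^ j by rw [← mul_pow]; norm_num]
        rw [mul_pow, mul_pow, mul_pow]
        ring
      _ ≤ N := hN
  set D : Finset (Fin n → ℕ) := Fintype.piFinset (fun _ => Finset.range (2 ^ j)) with hD
  have hDcard : D.card = (2 ^ j) ^ n := by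
    rw [hD, Fintype.card_piFinset]
    simp
  have hDmem : ∀ d ∈ D, ∀ i, d i < 2 ^ j := by
    intro d hd i
    have := Fintype.mem_piFinset.mp hd i
    simpa using this
  have hmaps : ∀ d ∈ D, ∑ i, d i ^ 2 ∈ Finset.range (n * 4 ^ j) := by
    intro d hd
    rw [Finset.mem_range]
    have h1 : ∀ i, d i ^ 2 < 4 ^ j := by
      intro i
      have h2 := hDmem d hd i
      calc d i ^ 2 < (2 ^ j) ^ 2 := Nat.pow_lt_pow_left h2 (by norm_num)
        _ = 4 ^ j := by rw [← pow_mul, mul_comm, pow_mul]; norm_num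
    have : Nonempty (Fin n) := ⟨⟨0, hn⟩⟩
    calc ∑ i, d i ^ 2 < ∑ _i : Fin n, 4 ^ j :=
          Finset.sum_lt_sum_of_nonempty Finset.univ_nonempty (fun i _ => h1 i)
      _ = n * 4 ^ j := by simp
  -- every class has at most `g N` elements
  have hclass : ∀ R ∈ Finset.range (n * 4 ^ j), (D.filter (fun d => ∑ i, d i ^ 2 = R)).card ≤ g N := by
    intro R _
    set E := D.filter (fun d => ∑ i, d i ^ 2 = R) with hE
    have hEl : ∀ d ∈ E, (∀ i, d i < 2 ^ j) ∧ ∑ i, d i ^ 2 = R := by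
      intro d hd
      rw [hE, Finset.mem_filter] at hd
      exact ⟨hDmem d hd.1, hd.2⟩
    have hcard : (E.image (val j n P)).card = E.card := by
      apply Finset.card_image_of_injOn
      intro a ha b hb hab
      exact val_inj j n P a b (hEl a ha).1 (hEl b hb).1 hab
    rw [← hcard]
    apply le_g
    · intro v hv
      obtain ⟨d, hd, rfl⟩ := Finset.mem_image.mp hv
      exact val_mem j n P N hP.pos hMP d
    · intro x hx y hy z hz x' hx' y' hy' z' hz' h
      obtain ⟨x, kx, rfl⟩ := Finset.mem_image.mp hx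
      obtain ⟨y, ky, rfl⟩ := Finset.mem_image.mp hy
      obtain ⟨z, kz, rfl⟩ := Finset.mem_image.mp hz
      obtain ⟨x', kx', rfl⟩ := Finset.mem_image.mp hx'
      obtain ⟨y', ky', rfl⟩ := Finset.mem_image.mp hy'
      obtain ⟨z', kz', rfl⟩ := Finset.mem_image.mp hz'
      exact main_free j n P R hP hPne hP1 x y z x' y' z' (hEl x kx).1 (hEl y ky).1 (hEl z kz).1
        (hEl x' kx').1 (hEl y' ky').1 (hEl z' kz').1 (hEl x' kx').2 (hEl y' ky').2 (hEl z kz).2 h
  calc (2 ^ j) ^ n = D.card := hDcard.symm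
    _ = ∑ R ∈ Finset.range (n * 4 ^ j), (D.filter (fun d => ∑ i, d i ^ 2 = R)).card :=
      Finset.card_eq_sum_card_fiberwise hmaps
    _ ≤ ∑ _R ∈ Finset.range (n * 4 ^ j), g N := Finset.sum_le_sum hclass
    _ = n * 4 ^ j * g N := by simp

/-! ### Asymptotics -/

lemma g_pos (N : ℕ) (hN : 1 ≤ N) : 1 ≤ g N := by
  have := le_g N {1} (by simpa using hN) (by
    intro x hx y hy z hz x' hx' y' hy' z' hz' _
    simp only [Finset.mem_singleton] at hx hy hz hx' hy' hz'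
    subst hx hy hz hx' hy' hz'
    intro a
    rfl)
  simpa using this

lemma eventually_bound (α : ℝ) (hα : α < Real.log 2 / Real.log 14) :
    ∀ᶠ N : ℕ in atTop, (N : ℝ) ^ α ≤ g N := by
  by_cases hα0 : α ≤ 0
  · filter_upwards [eventually_ge_atTop 1] with N hN
    have h1 : (1 : ℝ) ≤ N := by exact_mod_cast hN
    have h2 : (1 : ℝ) ≤ g N := by exact_mod_cast g_pos N hN
    exact (Real.rpow_le_one_of_one_le_of_nonpos h1 hα0).trans h2
  push Not at hα0
  have hl14 : 0 < Real.log 14 := Real.log_pos (by norm_num)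
  have hgap : 0 < Real.log 2 - α * Real.log 14 := by
    rw [lt_div_iff₀ hl14] at hα
    linarith
  obtain ⟨j, hj⟩ := exists_nat_gt (α * Real.log 3 / (Real.log 2 - α * Real.log 14))
  rw [div_lt_iff₀ hgap] at hj
  set Q : ℕ := 3 * 14 ^ j with hQ
  have hQ1 : 1 < Q := by
    have : 1 ≤ 14 ^ j := Nat.one_le_pow _ _ (by norm_num)
    omega
  have hQpos : (0 : ℝ) < Q := by positivity
  set ρ : ℝ := 2 ^ j / (Q : ℝ) ^ α with hρ
  have hρ1 : 1 < ρ := by
    rw [hρ, one_lt_div (by positivity)]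
    have h1 : Real.log ((Q : ℝ) ^ α) < Real.log (2 ^ j) := by
      rw [Real.log_rpow hQpos, hQ]
      push_cast
      rw [Real.log_mul (by norm_num) (by positivity), Real.log_pow, Real.log_pow]
      nlinarith [hj]
    exact (Real.log_lt_log_iff (by positivity) (by positivity)).mp h1
  -- `n * C ≤ ρ ^ n` for large `n`
  have hlim : Tendsto (fun n : ℕ => (n : ℝ) ^ 1 / ρ ^ n) atTop (𝓝 0) :=
    tendsto_pow_const_div_const_pow_of_one_lt 1 hρ1
  set C : ℝ := (2 * (Q : ℝ)) ^ α * 4 ^ j with hC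
  have hCpos : 0 < C := by positivity
  have hev : ∀ᶠ n : ℕ in atTop, (n : ℝ) * C ≤ ρ ^ n := by
    have := hlim.eventually (gt_mem_nhds (show (0 : ℝ) < 1 / C by positivity))
    filter_upwards [this] with n hn
    have hρn : 0 < ρ ^ n := by positivity
    rw [pow_one, div_lt_div_iff₀ hρn hCpos] at hn
    linarith
  have hlogt : Tendsto (fun N : ℕ => Nat.log Q (N / 2)) atTop atTop := by
    rw [tendsto_atTop]
    intro b
    filter_upwards [eventually_ge_atTop (2 * Q ^ b)] with N hN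
    have h1 : Q ^ b ≤ N / 2 := by omega
    have h2 : N / 2 ≠ 0 := by
      have : 0 < Q ^ b := by positivity
      omega
    exact (Nat.le_log_iff_pow_le hQ1 h2).mpr h1
  filter_upwards [hlogt.eventually hev, hlogt.eventually (eventually_ge_atTop 1),
    eventually_ge_atTop 2] with N h1 h2 h3
  set n := Nat.log Q (N / 2) with hn
  have hN2 : N / 2 ≠ 0 := by omega
  have hlow : Q ^ n ≤ N / 2 := Nat.pow_log_le_self Q hN2
  have hupp : N / 2 < Q ^ (n + 1) := Nat.lt_pow_succ_log_self hQ1 _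
  have hexp := explicit_bound j n N (by omega) (by rw [← hQ]; omega)
  have hexpR : ((2 : ℝ) ^ j) ^ n ≤ n * 4 ^ j * g N := by exact_mod_cast hexp
  have hNle : (N : ℝ) ≤ 2 * (Q : ℝ) * (Q : ℝ) ^ n := by
    have : N ≤ 2 * Q ^ (n + 1) := by omega
    have h4 : (N : ℝ) ≤ 2 * (Q : ℝ) ^ (n + 1) := by exact_mod_cast this
    rw [pow_succ] at h4
    linarith
  have hNα : (N : ℝ) ^ α ≤ (2 * (Q : ℝ)) ^ α * ((Q : ℝ) ^ α) ^ n := by
    calc (N : ℝ) ^ α ≤ (2 * (Q : ℝ) * (Q : ℝ) ^ n) ^ α :=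
          Real.rpow_le_rpow (by positivity) hNle hα0.le
      _ = (2 * (Q : ℝ)) ^ α * ((Q : ℝ) ^ n) ^ α := Real.mul_rpow (by positivity) (by positivity)
      _ = (2 * (Q : ℝ)) ^ α * ((Q : ℝ) ^ α) ^ n := by
        rw [← Real.rpow_natCast, ← Real.rpow_natCast, ← Real.rpow_mul hQpos.le,
          ← Real.rpow_mul hQpos.le, mul_comm α]
  have hnpos : (0 : ℝ) < n := by exact_mod_cast h2
  have hQα : (0 : ℝ) < (Q : ℝ) ^ α := by positivity
  have h5 : (n : ℝ) * C * ((Q : ℝ) ^ α) ^ n ≤ ((2 : ℝ) ^ j) ^ n := by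
    have : ρ ^ n * ((Q : ℝ) ^ α) ^ n = ((2 : ℝ) ^ j) ^ n := by
      rw [← mul_pow, hρ, div_mul_cancel₀ _ hQα.ne']
    rw [← this]
    exact mul_le_mul_of_nonneg_right h1 (by positivity)
  have h6 : (n : ℝ) * 4 ^ j * ((2 * (Q : ℝ)) ^ α * ((Q : ℝ) ^ α) ^ n) ≤ n * 4 ^ j * g N := by
    calc (n : ℝ) * 4 ^ j * ((2 * (Q : ℝ)) ^ α * ((Q : ℝ) ^ α) ^ n)
        = (n : ℝ) * C * ((Q : ℝ) ^ α) ^ n := by rw [hC]; ring
      _ ≤ ((2 : ℝ) ^ j) ^ n := h5
      _ ≤ n * 4 ^ j * g N := hexpR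
  have h7 := le_of_mul_le_mul_left h6 (by positivity)
  exact hNα.trans h7

/-- `g(N) ≥ N ^ (log 2 / log 14 - o(1))`. -/
theorem result :
    ∃ h : ℕ → ℝ, Tendsto h atTop (𝓝 0) ∧
      ∀ᶠ N : ℕ in atTop, (g N : ℝ) ≥ (N : ℝ) ^ (Real.log 2 / Real.log 14 - h N) := by
  set c : ℝ := Real.log 2 / Real.log 14 with hc
  refine ⟨fun N => max 0 (c - Real.log (g N) / Real.log N), ?_, ?_⟩
  · rw [Metric.tendsto_atTop]
    intro ε hε
    have h1 := eventually_bound (c - ε / 2) (by rw [← hc]; linarith)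
    obtain ⟨N0, hN0⟩ := eventually_atTop.mp (h1.and (eventually_ge_atTop 2))
    refine ⟨N0, fun N hN => ?_⟩
    obtain ⟨h2, h3⟩ := hN0 N hN
    have h3' : (2 : ℝ) ≤ N := by exact_mod_cast h3
    have hlogN : 0 < Real.log N := Real.log_pos (by linarith)
    have h4 : (c - ε / 2) * Real.log N ≤ Real.log (g N) := by
      rw [← Real.log_rpow (by linarith)]
      exact Real.log_le_log (by positivity) h2
    have h5 : c - Real.log (g N) / Real.log N ≤ ε / 2 := by
      have : c - ε / 2 ≤ Real.log (g N) / Real.log N := by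
        rw [le_div_iff₀ hlogN]
        exact h4
      linarith
    rw [Real.dist_eq, sub_zero, abs_of_nonneg (le_max_left _ _)]
    exact max_lt hε (by linarith)
  · filter_upwards [eventually_ge_atTop 2] with N hN
    have h3' : (2 : ℝ) ≤ N := by exact_mod_cast hN
    have hlogN : 0 < Real.log N := Real.log_pos (by linarith)
    have hg : (1 : ℝ) ≤ g N := by exact_mod_cast g_pos N (by omega)
    have h1 : c - max 0 (c - Real.log (g N) / Real.log N) ≤ Real.log (g N) / Real.log N := by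
      have := le_max_right 0 (c - Real.log (g N) / Real.log N)
      linarith
    show (N : ℝ) ^ (c - max 0 (c - Real.log (g N) / Real.log N)) ≤ g N
    calc (N : ℝ) ^ (c - max 0 (c - Real.log (g N) / Real.log N))
        ≤ (N : ℝ) ^ (Real.log (g N) / Real.log N) :=
          Real.rpow_le_rpow_of_exponent_le (by linarith) h1
      _ = g N := by
        rw [Real.rpow_def_of_pos (by linarith), mul_div_cancel₀ _ hlogN.ne', Real.exp_log (by linarith)]

end Pool.Agent.Results.MP_b9c6d3_nt.ExponentLogTwoOverLogFourteen
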